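import Pool.Agent.H.MP_436b38_co.C

set_option autoImplicit false

namespace Pool.Agent.H.MP_12caf3_co

open Finset PowerSeries Equiv Classical
open Pool.Agent.H.MP_436b38_co (ok ok_card)

noncomputable def geo (c : ℚ) : ℚ⟦X⟧ := PowerSeries.mk fun n => c ^ n

lemma geo_eq (c : ℚ) : geo c = 1 + X * (C c * geo c) := by
  ext n
  cases n with
  | zero => simp [geo]
  | succ n => simp [geo, coeff_one, coeff_succ_X_mul, pow_succ']

section gen
variable {L S : Type} [LinearOrder L] [Fintype L] (sg : L → S → ℚ) (fl : L → S → S)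

noncomputable def W (l : L) (s : S) : ℚ⟦X⟧ := ∏ l' ∈ univ.filter (l ≤ ·), geo (sg l' s)

noncomputable def R : ℕ → L → S → ℚ
  | 0, _, _ => 1
  | n + 1, l, s => ∑ l' ∈ univ.filter (l ≤ ·), sg l' s * R n l' (fl l' s)

lemma W_eq (l : L) (s : S) : W sg l s = 1 + X * ∑ l' ∈ univ.filter (l ≤ ·), C (sg l' s) * W sg l' s := by
  have h := prod_add_ordered (univ.filter (l ≤ ·)) (fun x => geo (sg x s)) (fun x => 1 - geo (sg x s))
  simp only [add_sub_cancel, prod_const_one, mul_one] at h
  rw [mul_sum, W, eq_comm, ← sub_eq_zero]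
  have e : ∀ x ∈ univ.filter (l ≤ ·), X * (C (sg x s) * W sg x s) =
      -((1 - geo (sg x s)) * ∏ j ∈ (univ.filter (l ≤ ·)).filter (x < ·), geo (sg j s)) := by
    intro x hx
    have : univ.filter (x ≤ ·) = insert x ((univ.filter (l ≤ ·)).filter (x < ·)) := by
      ext y
      simp only [mem_filter, mem_univ, true_and, mem_insert] at hx ⊢
      constructor
      · intro g
        rcases g.eq_or_lt with g1 | g1
        · exact Or.inl g1.symm
        · exact Or.inr ⟨hx.trans g, g1⟩
      · rintro (g | g)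
        · exact g.ge
        · exact g.2.le
    rw [W, this, prod_insert (by simp)]
    linear_combination (-∏ j ∈ (univ.filter (l ≤ ·)).filter (x < ·), geo (sg j s)) * geo_eq (sg x s)
  rw [sum_congr rfl e, sum_neg_distrib]
  linear_combination h

lemma R_eq (h : ∀ l s, W sg l (fl l s) = W sg l s) (n : ℕ) : ∀ l s, R sg fl n l s = coeff n (W sg l s) := by
  induction n with
  | zero => intro l s; rw [W_eq]; simp [R]
  | succ n ih =>
    intro l s
    rw [W_eq, map_add, coeff_succ_X_mul, coeff_one, if_neg (by omega), zero_add, map_sum, R]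
    exact sum_congr rfl fun x _ => by rw [ih, h, coeff_C_mul]

def wt : (n : ℕ) → S → (Fin n → L) → ℚ
  | 0, _, _ => 1
  | n + 1, s, c => sg (c 0) s * wt n (fl (c 0) s) (Fin.tail c)

lemma mono_cons {n : ℕ} {α : Type} [LinearOrder α] (l x : α) (c : Fin n → α) :
    Monotone (Fin.cons l (Fin.cons x c : Fin (n + 1) → α) : Fin (n + 2) → α) ↔
      l ≤ x ∧ Monotone (Fin.cons x c : Fin (n + 1) → α) := by
  rw [Fin.monotone_iff_le_succ, Fin.monotone_iff_le_succ, Fin.forall_fin_succ]
  rfl

lemma R_sum (n : ℕ) : ∀ l s, R sg fl n l s =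
    ∑ c : Fin n → L, if Monotone (Fin.cons l c : Fin (n + 1) → L) then wt sg fl n s c else 0 := by
  induction n with
  | zero =>
    intro l s
    rw [Fintype.sum_unique, if_pos (Fin.monotone_iff_le_succ.2 fun i => i.elim0)]
    rfl
  | succ n ih =>
    intro l s
    rw [R, sum_filter, ← (Fin.consEquiv fun _ => L).sum_comp, Fintype.sum_prod_type]
    refine sum_congr rfl fun x _ => ?_
    have e : ∀ c : Fin n → L, (Fin.consEquiv fun _ => L) (x, c) = Fin.cons x c := fun _ => rfl
    simp only [e, mono_cons, wt, Fin.cons_zero, Fin.tail_cons]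
    split_ifs with g
    · rw [ih, mul_sum]
      refine sum_congr rfl fun c _ => ?_
      simp only [g, true_and, mul_ite, mul_zero]
    · exact (sum_eq_zero fun c _ => if_neg fun h => g h.1).symm

end gen

lemma ok_iff' (a n : ℕ) : ∀ (D : ℕ → ℕ) (lo : ℕ) (g : Fin n → Fin a), ok a n D lo g ↔
    ∀ i : Fin n, (Fin.cons lo (fun i => (g i : ℕ)) : Fin (n + 1) → ℕ) i.castSucc + D i ≤ g i := by
  induction n with
  | zero => intro D lo g; simp [ok]
  | succ n ih =>
    intro D lo g
    rw [ok, ih, Fin.forall_fin_succ]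
    refine and_congr Iff.rfl (forall_congr' fun i => ?_)
    have : (Fin.cons (g 0 : ℕ) (fun i => (Fin.tail g i : ℕ)) : Fin (n + 1) → ℕ) = fun i => (g i : ℕ) := by
      funext j
      refine Fin.cases rfl (fun j => rfl) j
    rw [this]
    rfl

noncomputable def dz {n : ℕ} {β : Type} [LinearOrder β] (z : β) (x : Fin n → β) : ℕ :=
  (univ.filter fun i : Fin n => x i < (Fin.cons z x : Fin (n + 1) → β) i.castSucc).card

lemma cnt {n : ℕ} {β : Type} [LinearOrder β] (z : β) (x : Fin n → β) (b : ℕ) :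
    (univ.filter fun g : Fin n → Fin (b + 1) => Monotone (Fin.cons (toLex ((0 : Fin (b + 1)), z))
      (fun i => toLex (g i, x i)) : Fin (n + 1) → Fin (b + 1) ×ₗ β)).card = (b + n - dz z x).choose n := by
  let D : ℕ → ℕ := fun i => if h : i < n then
    (if x ⟨i, h⟩ < (Fin.cons z x : Fin (n + 1) → β) (⟨i, h⟩ : Fin n).castSucc then 1 else 0) else 0
  have e : ∑ i ∈ range n, D i = dz z x := by
    rw [dz, card_filter, ← Fin.sum_univ_eq_sum_range]
    exact sum_congr rfl fun i _ => dif_pos i.2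
  have := ok_card (b + 1) n D 0
  rw [e, show b + 1 + n - 1 - 0 - dz z x = b + n - dz z x by omega] at this
  rw [← this]
  congr 1
  refine filter_congr fun g _ => ?_
  rw [ok_iff', Fin.monotone_iff_le_succ]
  refine forall_congr' fun i => ?_
  have e1 : ∀ j : Fin (n + 1), (Fin.cons (toLex ((0 : Fin (b + 1)), z)) (fun i => toLex (g i, x i)) :
      Fin (n + 1) → Fin (b + 1) ×ₗ β) j = toLex ((Fin.cons 0 g : Fin (n + 1) → Fin (b + 1)) j,
        (Fin.cons z x : Fin (n + 1) → β) j) := fun j => Fin.cases rfl (fun j => rfl) j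
  have e2 : ∀ j : Fin (n + 1), (Fin.cons 0 (fun i => (g i : ℕ)) : Fin (n + 1) → ℕ) j =
      ((Fin.cons 0 g : Fin (n + 1) → Fin (b + 1)) j : ℕ) := fun j => Fin.cases rfl (fun j => rfl) j
  rw [e1, e2, Fin.cons_succ, Prod.Lex.toLex_le_toLex]
  simp only [D, i.2, dif_pos, Fin.eta, Fin.lt_def, Fin.ext_iff]
  split_ifs with h
  · constructor
    · rintro (g1 | g1)
      · omega
      · exact absurd h (not_lt.2 g1.2)
    · intro g1; left; omega
  · constructor
    · rintro (g1 | g1) <;> omega
    · intro g1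
      rcases Nat.lt_or_eq_of_le g1 with g2 | g2
      · left; omega
      · exact Or.inr ⟨g2, not_lt.1 h⟩

end Pool.Agent.H.MP_12caf3_co
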