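import Pool.Agent.H.MP_12caf3_co.A

set_option autoImplicit false

namespace Pool.Agent.H.MP_12caf3_co

open Finset PowerSeries Equiv Classical

def ab (a m : ℕ) : ℕ := if m < a then a - m else m - a
def nu (a m : ℕ) : ℕ := if m < a then a - m else m - a + 1
def ep (a m : ℕ) : ℤˣ := if m < a then -1 else 1

variable {n : ℕ}

def vl (σ : Perm (Fin n)) (ε : Fin n → ℤˣ) (i : Fin n) : ℤ := ε i * ((σ i : ℕ) + 1)

def key (a : ℕ) (m : Fin n → Fin (a + (a + 1))) (p : Fin n) : ℕ ×ₗ ℤ :=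
  toLex (ab a (m p), (ep a (m p) : ℤ) * ((p : ℕ) + 1))

noncomputable def sd (a : ℕ) (m : Fin n → Fin (a + (a + 1))) : Perm (Fin n) := (Tuple.sort (key a m)).symm

lemma vl_inj (ε : Fin n → ℤˣ) {p q : Fin n} (h : (ε p : ℤ) * ((p : ℕ) + 1) = ε q * ((q : ℕ) + 1)) : p = q := by
  rcases Int.units_eq_one_or (ε p) with g1 | g1 <;> rcases Int.units_eq_one_or (ε q) with g2 | g2 <;>
  · rw [g1, g2] at h
    simp only [Units.val_one, Units.val_neg] at h
    ext
    omega

lemma key_inj (a : ℕ) (m : Fin n → Fin (a + (a + 1))) : Function.Injective (key a m) := fun _ _ h =>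
  vl_inj (fun p => ep a (m p)) (congrArg (fun x => (ofLex x).2) h)

lemma sd_lt (a : ℕ) (m : Fin n → Fin (a + (a + 1))) (p q : Fin n) : sd a m p < sd a m q ↔ key a m p < key a m q := by
  have h : StrictMono (key a m ∘ Tuple.sort (key a m)) :=
    (Tuple.monotone_sort _).strictMono_of_injective ((key_inj a m).comp (Equiv.injective _))
  rw [← h.lt_iff_lt]
  simp [sd]

lemma sd_lt' (a : ℕ) (m : Fin n → Fin (a + (a + 1))) {p q : Fin n} (h : p < q) :
    sd a m p < sd a m q ↔ ab a (m p) < nu a (m q) := by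
  rw [sd_lt, key, key, Prod.Lex.toLex_lt_toLex]
  have : (p : ℕ) < q := h
  simp only [ab, nu, ep]
  split_ifs <;> simp only [Units.val_one, Units.val_neg] <;> omega

lemma fiber (a : ℕ) (σ : Perm (Fin n)) (ε : Fin n → ℤˣ) :
    (univ.filter fun m : Fin n → Fin (a + (a + 1)) => sd a m = σ ∧ (fun p => ep a (m p)) = ε).card =
      (a + n - dz 0 (vl σ.symm (ε ∘ σ.symm))).choose n := by
  rw [← cnt]
  have hb : ∀ m : Fin (a + (a + 1)), ab a m < a + 1 := fun m => by
    have := m.2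
    unfold ab; split_ifs <;> omega
  have hpos : ∀ h : Fin n → Fin (a + 1), Monotone (Fin.cons (toLex ((0 : Fin (a + 1)), (0 : ℤ)))
      (fun i => toLex (h i, vl σ.symm (ε ∘ σ.symm) i)) : Fin (n + 1) → Fin (a + 1) ×ₗ ℤ) →
      ∀ p, ε p = -1 → 0 < (h (σ p) : ℕ) := by
    intro h hh p hp
    have := hh (Fin.zero_le (σ p).succ)
    rw [Fin.cons_zero, Fin.cons_succ, Prod.Lex.toLex_le_toLex] at this
    rcases this with g | g
    · exact g
    · have g2 := g.2
      simp [vl, hp] at g2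
      omega
  refine card_bij' (fun m _ => fun v => ⟨ab a (m (σ.symm v)), hb _⟩)
    (fun h _ => fun p => ⟨if ε p = -1 then a - h (σ p) else a + h (σ p), by
      have := (h (σ p)).2
      split_ifs <;> omega⟩) ?_ ?_ ?_ ?_
  · intro m hm
    obtain ⟨h1, h2⟩ := (mem_filter.1 hm).2
    refine mem_filter.2 ⟨mem_univ _, Fin.monotone_iff_le_succ.2 fun i => ?_⟩
    have h3 : ∀ p, ep a (m p) = ε p := congrFun h2
    rcases n with _ | n
    · exact i.elim0
    refine Fin.cases ?_ (fun j => ?_) i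
    · rw [Fin.castSucc_zero, Fin.cons_zero, Fin.cons_succ, Prod.Lex.toLex_le_toLex]
      simp only [Fin.lt_def, Fin.ext_iff, vl, Function.comp, ← h3, ab, ep, Fin.val_zero]
      split_ifs <;> simp only [Units.val_one, Units.val_neg] <;> omega
    · rw [← Fin.succ_castSucc, Fin.cons_succ, Fin.cons_succ, Prod.Lex.toLex_le_toLex]
      have := (sd_lt a m (σ.symm j.castSucc) (σ.symm j.succ)).1 (by rw [h1]; simp)
      rw [key, key, Prod.Lex.toLex_lt_toLex] at this
      simp only [Fin.lt_def, Fin.ext_iff, vl, Function.comp, ← h3]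
      exact this.imp id fun g => ⟨g.1, g.2.le⟩
  · intro h hh
    have h1 := (mem_filter.1 hh).2
    have h2 := hpos h h1
    have h3 : ∀ p, ep a (if ε p = -1 then a - h (σ p) else a + h (σ p)) = ε p := fun p => by
      have := (h (σ p)).2
      unfold ep
      by_cases g : ε p = -1
      · have := h2 p g
        rw [if_pos g, if_pos (by omega), g]
      · rw [if_neg g, if_neg (by omega)]
        exact ((Int.units_eq_one_or _).resolve_right g).symm
    have h4 : ∀ p, ab a (if ε p = -1 then a - h (σ p) else a + h (σ p)) = h (σ p) := fun p => by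
      have := (h (σ p)).2
      unfold ab
      by_cases g : ε p = -1
      · have := h2 p g
        rw [if_pos g, if_pos (by omega)]; omega
      · rw [if_neg g, if_neg (by omega)]; omega
    refine mem_filter.2 ⟨mem_univ _, ?_, funext h3⟩
    rw [sd, ← Equiv.symm_symm σ, Equiv.symm_bijective.injective.eq_iff, eq_comm, Tuple.eq_sort_iff, Equiv.symm_symm]
    refine ⟨fun i j hij => ?_, fun i j hij e => absurd (σ.symm.injective (key_inj _ _ e)) hij.ne⟩
    have := h1 (Fin.succ_le_succ_iff.2 hij)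
    rw [Fin.cons_succ, Fin.cons_succ, Prod.Lex.toLex_le_toLex] at this
    simp only [Function.comp, key]
    rw [h3, h3, h4, h4]
    simp only [Prod.Lex.toLex_le_toLex, Equiv.apply_symm_apply]
    simpa only [Fin.lt_def, Fin.ext_iff, vl, Function.comp] using this
  · intro m hm
    obtain ⟨h1, h2⟩ := (mem_filter.1 hm).2
    have h3 : ∀ p, ep a (m p) = ε p := congrFun h2
    funext p
    simp only [Fin.ext_iff, Equiv.symm_apply_apply, ← h3, ab, ep]
    by_cases g : (m p : ℕ) < a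
    · simp only [g, if_true]; omega
    · simp only [g, if_false]
      rw [if_neg (by decide)]; omega
  · intro h hh
    have h2 := hpos h (mem_filter.1 hh).2
    funext v
    have h3 := h2 (σ.symm v)
    have := (h v).2
    simp only [Fin.ext_iff, Equiv.apply_symm_apply, ab] at h3 ⊢
    by_cases g : ε (σ.symm v) = -1
    · have := h3 g
      rw [if_pos g, if_pos (by omega)]; omega
    · rw [if_neg g, if_neg (by omega)]; omega

lemma std (a : ℕ) (Φ : Perm (Fin n) → (Fin n → ℤˣ) → ℚ) :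
    ∑ σ : Perm (Fin n), ∑ ε : Fin n → ℤˣ, ((a + n - dz 0 (vl σ.symm (ε ∘ σ.symm))).choose n : ℚ) * Φ σ ε =
      ∑ m : Fin n → Fin (a + (a + 1)), Φ (sd a m) (fun p => ep a (m p)) := by
  simp only [← fiber, card_filter, Nat.cast_sum, sum_mul, Nat.cast_ite, Nat.cast_one, Nat.cast_zero, ite_mul,
    one_mul, zero_mul]
  rw [sum_congr rfl fun σ _ => sum_comm, sum_comm]
  refine sum_congr rfl fun m _ => ?_
  simp only [ite_and, sum_ite_irrel, sum_ite_eq, mem_univ, if_true, sum_const_zero]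

lemma dz_sd (a : ℕ) (m : Fin n → Fin (a + (a + 1))) :
    dz 0 (vl (sd a m) (fun p => ep a (m p))) = dz (⟨a, by omega⟩ : Fin (a + (a + 1))) m := by
  unfold dz
  congr 1
  refine filter_congr fun i _ => ?_
  rcases n with _ | n
  · exact i.elim0
  refine Fin.cases ?_ (fun j => ?_) i
  · rw [Fin.castSucc_zero, Fin.cons_zero, Fin.cons_zero]
    simp only [vl, ep, Fin.lt_def]
    split_ifs with g <;> simp only [Units.val_one, Units.val_neg, g] <;> simp <;> omega
  · rw [← Fin.succ_castSucc, Fin.cons_succ, Fin.cons_succ]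
    have h1 := sd_lt' a m j.castSucc_lt_succ
    have h2 : sd a m j.castSucc ≠ sd a m j.succ := fun e => j.castSucc_lt_succ.ne ((sd a m).injective e)
    simp only [vl, ep, ab, nu, Fin.lt_def, Ne, Fin.ext_iff] at h1 h2 ⊢
    split_ifs at h1 ⊢ <;> simp only [Units.val_one, Units.val_neg] <;> omega

def sg (a b : ℕ) (κ : ℚ) (l : Fin (b + 1) ×ₗ Fin (a + (a + 1))) (s : ℕ → ℚ) : ℚ :=
  (if ((ofLex l).2 : ℕ) < a then κ else 1) * s (nu a (ofLex l).2)

def fl (a b : ℕ) (κ : ℚ) (l : Fin (b + 1) ×ₗ Fin (a + (a + 1))) (s : ℕ → ℚ) (k : ℕ) : ℚ :=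
  s k * if ab a (ofLex l).2 < k then 1 else κ

lemma wt_eq (a b : ℕ) (κ : ℚ) (n : ℕ) : ∀ (s : ℕ → ℚ) (c : Fin n → Fin (b + 1) ×ₗ Fin (a + (a + 1))),
    wt (sg a b κ) (fl a b κ) n s c = ∏ q, (sg a b κ (c q) s *
      ∏ p, if p < q then (if ab a (ofLex (c p)).2 < nu a (ofLex (c q)).2 then 1 else κ) else 1) := by
  induction n with
  | zero => intro s c; rfl
  | succ n ih =>
    intro s c
    rw [wt, ih, Fin.prod_univ_succ]
    congr 1
    · simp
    · refine prod_congr rfl fun q _ => ?_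
      rw [Fin.prod_univ_succ]
      simp only [Fin.succ_pos, if_true, Fin.succ_lt_succ_iff, sg, fl, Fin.tail, mul_assoc]
      rfl

lemma W_fl (a b : ℕ) {κ : ℚ} (hκ : κ * κ = 1) (l : Fin (b + 1) ×ₗ Fin (a + (a + 1))) (s : ℕ → ℚ) :
    W (sg a b κ) l (fl a b κ l s) = W (sg a b κ) l s := by
  let τ : Fin (a + (a + 1)) → Fin (a + (a + 1)) := fun m =>
    if nu a m ≤ ab a (ofLex l).2 then ⟨2 * a - 1 - m, by omega⟩ else m
  have hl := (ofLex l).2.2
  have h0 : ∀ m, (τ m : ℕ) = if nu a m ≤ ab a (ofLex l).2 then 2 * a - 1 - m else m := fun m => by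
    simp only [τ]; split_ifs <;> rfl
  have h1 : ∀ m, τ (τ m) = m := fun m => by
    have := m.2
    ext
    rw [h0, h0]
    unfold nu ab
    split_ifs <;> omega
  have h2 : ∀ x ∈ univ.filter (l ≤ ·), toLex ((ofLex x).1, τ (ofLex x).2) ∈ univ.filter (l ≤ ·) := by
    intro x hx
    have := (ofLex x).2.2
    simp only [mem_filter, mem_univ, true_and, Prod.Lex.le_iff, ofLex_toLex, Fin.le_def, h0] at hx ⊢
    refine hx.imp id fun g => ⟨g.1, ?_⟩
    have := g.2
    unfold nu ab
    split_ifs <;> omega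
  refine prod_nbij' (fun x => toLex ((ofLex x).1, τ (ofLex x).2)) (fun x => toLex ((ofLex x).1, τ (ofLex x).2))
    h2 h2 (fun x _ => by simp [h1]) (fun x _ => by simp [h1]) fun x _ => ?_
  congr 1
  have := (ofLex x).2.2
  simp only [sg, fl, ofLex_toLex, h0]
  by_cases g : nu a (ofLex x).2 ≤ ab a (ofLex l).2
  · have e : nu a (2 * a - 1 - (ofLex x).2) = nu a (ofLex x).2 := by
      unfold nu ab at *
      split_ifs at * <;> omega
    rw [if_pos g, e, if_neg (not_lt.2 g)]
    by_cases g1 : ((ofLex x).2 : ℕ) < a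
    · rw [if_pos g1, if_neg (by omega)]
      linear_combination s (nu a (ofLex x).2) * hκ
    · rw [if_neg g1, if_pos (by unfold nu ab at g; split_ifs at g <;> omega)]
      ring
  · rw [if_neg g, if_pos (not_le.1 g), mul_one]

lemma W_one (a b : ℕ) (κ : ℚ) : W (sg a b κ) (toLex (0, ⟨a, by omega⟩)) (fun _ => 1) =
    geo 1 ^ ((a + 1) * (b + 1)) * geo κ ^ (a * b) := by
  rw [W, prod_filter, ← (toLex : _ ≃ Fin (b + 1) ×ₗ Fin (a + (a + 1))).prod_comp, Fintype.prod_prod_type,
    Fin.prod_univ_succ]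
  simp only [Prod.Lex.toLex_le_toLex, Fin.succ_pos, true_or, if_true, lt_irrefl, false_or, true_and]
  simp only [Fin.prod_univ_add (a := a) (b := a + 1)]
  have e1 : ∀ g (x : Fin (a + 1)), sg a b κ (toLex (g, Fin.natAdd a x)) (fun _ => 1) = 1 := fun g x => by
    rw [sg, if_neg (by simp), mul_one]
  have e2 : ∀ g (x : Fin a), sg a b κ (toLex (g, Fin.castAdd (a + 1) x)) (fun _ => 1) = κ := fun g x => by
    rw [sg, if_pos (by simp), mul_one]
  simp only [e1, e2]
  rw [prod_eq_one (fun x _ => if_neg (by simp [Fin.le_def])),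
    prod_congr rfl (fun (x : Fin (a + 1)) _ => if_pos (by simp [Fin.le_def]))]
  simp only [prod_const, card_univ, Fintype.card_fin]
  ring

noncomputable def chi (κ : ℚ) (σ : Perm (Fin n)) (ε : Fin n → ℤˣ) : ℚ :=
  ∏ q, ((if ε q = -1 then κ else 1) * ∏ p, if p < q then (if σ p < σ q then 1 else κ) else 1)

theorem count (a b : ℕ) {κ : ℚ} (hκ : κ * κ = 1) :
    ∑ σ : Perm (Fin n), ∑ ε : Fin n → ℤˣ, ((a + n - dz 0 (vl σ.symm (ε ∘ σ.symm))).choose n : ℚ) *
      (((b + n - dz 0 (vl σ ε)).choose n : ℚ) * chi κ σ ε) =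
      coeff n (geo 1 ^ ((a + 1) * (b + 1)) * geo κ ^ (a * b)) := by
  rw [std, ← W_one, ← R_eq _ _ (W_fl a b hκ), R_sum]
  simp only [dz_sd, ← cnt, card_filter, Nat.cast_sum, sum_mul, Nat.cast_ite, Nat.cast_one, Nat.cast_zero, ite_mul,
    one_mul, zero_mul]
  rw [sum_comm, ← Fintype.sum_prod_type']
  refine Fintype.sum_equiv ((Equiv.arrowProdEquivProdArrow _ _ _).symm.trans
    (Equiv.arrowCongr (Equiv.refl _) toLex)) _ _ fun x => ?_
  refine if_congr Iff.rfl ?_ rfl
  rw [wt_eq, chi]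
  refine prod_congr rfl fun q _ => ?_
  congr 1
  · have : ep a (x.2 q) = -1 ↔ (x.2 q : ℕ) < a := by
      unfold ep; split_ifs with g <;> simp [g]
    simp only [sg, mul_one, this]
    rfl
  · refine prod_congr rfl fun p _ => ?_
    by_cases g : p < q
    · rw [if_pos g, if_pos g]
      exact if_congr (sd_lt' a x.2 g) rfl rfl
    · rw [if_neg g, if_neg g]

end Pool.Agent.H.MP_12caf3_co
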