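import Pool.Agent.H.MP_12caf3_co.B

set_option autoImplicit false

namespace Pool.Agent.H.MP_12caf3_co

open Finset
open Pool.Agent.H.MP_436b38_co

section
variable {A : Type*} [CommRing A] [Algebra ℚ A] {θs θt : A →ₗ[ℚ] A} {s t : A}

lemma op_gen (hs : Leib θs) (ht : Leib θt) (h1 : θs s = s) (h2 : θs t = 0) (h3 : θt t = t) (h4 : θt s = 0)
    (N i j l : ℕ) (c d : ℤ) (hN : (N : ℤ) = 2 * i + j + l + d) : op θs θt s t N c (Bs s t i j l) =
      ((i * (i + j) + c : ℤ) : A) * Bs s t i j (l + 1) +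
      ((i * (i + l + d) - c : ℤ) : A) * Bs s t i (j + 1) l +
      ((j * (j - 1) : ℤ) : A) * Bs s t (i + 1) (j - 2) (l + 1) +
      ((j * (4 * i + j + 2 * l + 1 + 2 * d) : ℤ) : A) * Bs s t (i + 1) (j - 1) l +
      ((l * (4 * i + 2 * j + l + 1 + 2 * d) : ℤ) : A) * Bs s t (i + 1) j (l - 1) +
      ((l * (l - 1) : ℤ) : A) * Bs s t (i + 1) (j + 1) (l - 2) +
      ((d * l : ℤ) : A) * Bs s t (i + 1) (j + 1) (l - 1) +
      ((d * (2 * i + j + d) : ℤ) : A) * Bs s t (i + 1) j l := by
  have a1 := hs.one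
  have a2 := ht.one
  have aN : (N : A) = 2 * i + j + l + d := by
    have := congrArg (Int.cast : ℤ → A) hN
    push_cast at this
    exact this
  have b1 : ∀ n : ℕ, θs ((s * t) ^ n) = n * (s * t) ^ n := fun n => by
    cases n with
    | zero => simp [a1]
    | succ n => rw [hs.pw, hs, h1, h2]; push_cast; ring
  have b2 : ∀ n : ℕ, θt ((s * t) ^ n) = n * (s * t) ^ n := fun n => by
    cases n with
    | zero => simp [a2]
    | succ n => rw [ht.pw, ht, h3, h4]; push_cast; ring
  have c1 : ∀ n : ℕ, θs ((s + t) ^ (n + 1)) = (n + 1) * (s + t) ^ n * s := fun n => by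
    rw [hs.pw, map_add, h1, h2, add_zero]
  have c2 : ∀ n : ℕ, θt ((s + t) ^ (n + 1)) = (n + 1) * (s + t) ^ n * t := fun n => by
    rw [ht.pw, map_add, h3, h4, zero_add]
  have d1 : ∀ n : ℕ, θs ((1 + s * t) ^ (n + 1)) = (n + 1) * (1 + s * t) ^ n * (s * t) := fun n => by
    rw [hs.pw, map_add, a1, hs, h1, h2]; ring
  have d2 : ∀ n : ℕ, θt ((1 + s * t) ^ (n + 1)) = (n + 1) * (1 + s * t) ^ n * (s * t) := fun n => by
    rw [ht.pw, map_add, a2, ht, h3, h4]; ring
  rcases j with _ | _ | j <;> rcases l with _ | _ | l <;>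
  · simp only [op, TT, Bs, pow_zero, zero_add, pow_one, mul_one, ht _ _, b1, b2, c1, c2, d1, d2, map_add, h3, h4,
      a2, map_sub, hs _ _, h1, h2, a1, hs.nat, Nat.add_sub_cancel, mul_zero, add_zero, sub_zero,
      show ∀ k : ℕ, k + 1 + 1 - 2 = k from fun _ => rfl, Int.cast_add, Int.cast_mul, Int.cast_sub,
      Int.cast_natCast, Int.cast_one, Int.cast_ofNat, Nat.cast_add, Nat.cast_one,
      Nat.cast_zero, Int.cast_zero, zero_mul]
    rw [aN]
    push_cast
    ring

lemma op_two (hs : Leib θs) (ht : Leib θt) (h1 : θs s = s) (h2 : θs t = 0) (h3 : θt t = t) (h4 : θt s = 0)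
    (i i' j l : ℕ) (c : ℤ) :
    op θs θt s t (i + i' + j + l + 1) c (s * t * Bs s t i' j l) = s * t * (
      ((i * (i + j) + c : ℤ) : A) * Bs s t i' j (l + 1) +
      ((i * (i' + l + 1) - c : ℤ) : A) * Bs s t i' (j + 1) l +
      ((j * (j - 1) : ℤ) : A) * Bs s t (i' + 1) (j - 2) (l + 1) +
      ((j * (2 * i + 2 * i' + j + 2 * l + 3) : ℤ) : A) * Bs s t (i' + 1) (j - 1) l +
      ((l * (2 * i + 2 * i' + 2 * j + l + 3) : ℤ) : A) * Bs s t (i' + 1) j (l - 1) +
      ((l * (l - 1) : ℤ) : A) * Bs s t (i' + 1) (j + 1) (l - 2) +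
      (((i' + 1 - i) * l : ℤ) : A) * Bs s t i' (j + 1) (l - 1) +
      (((i' + 1 - i) * (i + i' + j + 1) : ℤ) : A) * Bs s t i' j l) := by
  rw [show s * t * Bs s t i' j l = Bs s t (i' + 1) j l by simp only [Bs]; ring,
    op_gen hs ht h1 h2 h3 h4 _ _ _ _ c (i - i' - 1) (by push_cast; ring)]
  rcases j with _ | _ | j <;> rcases l with _ | _ | l <;>
  · simp only [Bs, Nat.add_sub_cancel, show ∀ k : ℕ, k + 1 + 1 - 2 = k from fun _ => rfl]
    push_cast
    ring

def cone2 (s t : A) (N k : ℕ) : AddSubmonoid (A × A) := AddSubmonoid.closure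
  {x | ∃ (r : ℚ) (i i' j l : ℕ), 0 ≤ r ∧ i + i' + j + l + 1 = N ∧ i ≤ i' + 1 ∧ i' ≤ i + 1 ∧
    k ≤ i * (i' + l + 1) ∧ x = (r • Bs s t i j l, r • Bs s t i' j l)}

lemma mem_cone2 {N k i i' j l : ℕ} {r : ℚ} {m : ℤ} (hr : 0 ≤ r) (hm : 0 ≤ m) (h : m ≠ 0 →
    i + i' + j + l + 1 = N ∧ i ≤ i' + 1 ∧ i' ≤ i + 1 ∧ k ≤ i * (i' + l + 1)) :
    (r • ((m : A) * Bs s t i j l), r • ((m : A) * Bs s t i' j l)) ∈ cone2 s t N k := by
  by_cases g : m = 0
  · simp only [g, Int.cast_zero, zero_mul, smul_zero]; exact zero_mem _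
  · refine AddSubmonoid.subset_closure ⟨r * m, i, i', j, l, by positivity, (h g).1, (h g).2.1, (h g).2.2.1,
      (h g).2.2.2, ?_⟩
    rw [mul_smul, mul_smul, Int.cast_smul_eq_zsmul, Int.cast_smul_eq_zsmul, zsmul_eq_mul, zsmul_eq_mul]

lemma op_cone2 (hs : Leib θs) (ht : Leib θt) (h1 : θs s = s) (h2 : θs t = 0) (h3 : θt t = t) (h4 : θt s = 0)
    {N k : ℕ} {x : A × A} (hF : x ∈ cone2 s t N k) : ∃ G : A,
    (op θs θt s t N k x.1, G) ∈ cone2 s t (N + 1) (k + 1) ∧ op θs θt s t N k (s * t * x.2) = s * t * G := by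
  induction hF using AddSubmonoid.closure_induction with
  | zero =>
    have := op_smul (θs := θs) (θt := θt) (s := s) (t := t) N k 0 0
    rw [zero_smul, zero_smul] at this
    exact ⟨0, by rw [Prod.fst_zero, this]; exact zero_mem _, by rw [Prod.snd_zero, mul_zero, this]⟩
  | add x y _ _ hx hy =>
    obtain ⟨G, g1, g2⟩ := hx
    obtain ⟨G', g3, g4⟩ := hy
    exact ⟨G + G', by rw [Prod.fst_add, op_add]; exact add_mem g1 g3,
      by rw [Prod.snd_add, mul_add, op_add, g2, g4, mul_add]⟩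
  | mem x hx =>
    obtain ⟨r, i, i', j, l, hr, rfl, ha, hb, hc, rfl⟩ := hx
    have e := op_two hs ht h1 h2 h3 h4 i i' j l k
    refine ⟨r • _, ?_, ((congrArg _ (mul_smul_comm r (s * t) (Bs s t i' j l))).trans
      ((op_smul _ _ _ _).trans (congrArg (r • ·) e))).trans (mul_smul_comm _ _ _).symm⟩
    clear e
    rw [op_smul, op_gen hs ht h1 h2 h3 h4 _ _ _ _ _ (i' + 1 - i) (by push_cast; ring),
      show (i : ℤ) + l + (i' + 1 - i) = i' + l + 1 by ring,
      show (4 * i + j + 2 * l + 1 + 2 * (i' + 1 - i) : ℤ) = 2 * i + 2 * i' + j + 2 * l + 3 by ring,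
      show (4 * i + 2 * j + l + 1 + 2 * (i' + 1 - i) : ℤ) = 2 * i + 2 * i' + 2 * j + l + 3 by ring,
      show (2 * i + j + (i' + 1 - i) : ℤ) = i + i' + j + 1 by ring]
    simp only [smul_add, ← Prod.mk_add_mk]
    have hc' : (k : ℤ) ≤ i * (i' + l + 1) := by exact_mod_cast hc
    have hd : (0 : ℤ) ≤ i' + 1 - i := by omega
    refine add_mem (add_mem (add_mem (add_mem (add_mem (add_mem (add_mem
      (mem_cone2 hr (by positivity) fun g => ⟨by omega, ha, hb, ?_⟩)
      (mem_cone2 hr (by omega) fun g => ⟨by omega, ha, hb, ?_⟩)) (mem_cone2 hr ?_ fun g => ?_))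
      (mem_cone2 hr (by positivity) fun g => ?_)) (mem_cone2 hr (by positivity) fun g => ?_))
      (mem_cone2 hr ?_ fun g => ?_)) (mem_cone2 hr (by positivity) fun g => ?_))
      (mem_cone2 hr (by positivity) fun g => ?_)
    · rcases i with _ | i
      · simp at g hc; omega
      · nlinarith
    · zify; omega
    · rcases j with _ | j <;> simp
    · rcases j with _ | _ | j
      · simp at g
      · simp at g
      · rw [show j + 1 + 1 - 2 = j by omega]
        exact ⟨by omega, by omega, by omega, by nlinarith⟩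
    · rcases j with _ | j
      · simp at g
      · rw [Nat.add_sub_cancel]
        exact ⟨by omega, by omega, by omega, by nlinarith⟩
    · rcases l with _ | l
      · simp at g
      · rw [Nat.add_sub_cancel]
        exact ⟨by omega, by omega, by omega, by nlinarith⟩
    · rcases l with _ | l <;> simp
    · rcases l with _ | _ | l
      · simp at g
      · simp at g
      · rw [show l + 1 + 1 - 2 = l by omega]
        exact ⟨by omega, by omega, by omega, by nlinarith⟩
    · have : i ≤ i' := by have := left_ne_zero_of_mul g; omega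
      rcases l with _ | l
      · simp at g
      · rw [Nat.add_sub_cancel]
        exact ⟨by omega, by omega, by omega, by nlinarith⟩
    · have : i ≤ i' := by have := left_ne_zero_of_mul g; omega
      exact ⟨by omega, by omega, by omega, by nlinarith⟩

lemma cone2_smul {N k : ℕ} {r : ℚ} (hr : 0 ≤ r) {x : A × A} (hF : x ∈ cone2 s t N k) :
    r • x ∈ cone2 s t N k := by
  induction hF using AddSubmonoid.closure_induction with
  | zero => simp
  | add x y _ _ hx hy => rw [smul_add]; exact add_mem hx hy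
  | mem x hx =>
    obtain ⟨r', i, i', j, l, hr', h1, ha, hb, hc, rfl⟩ := hx
    exact AddSubmonoid.subset_closure ⟨r * r', i, i', j, l, by positivity, h1, ha, hb, hc, by
      simp only [Prod.smul_mk, smul_smul]⟩

lemma cone2_swap {N k : ℕ} {x : A × A} (hF : x ∈ cone2 s t N k) : x.swap ∈ cone2 s t N 0 := by
  induction hF using AddSubmonoid.closure_induction with
  | zero => exact zero_mem _
  | add x y _ _ hx hy => exact add_mem hx hy
  | mem x hx =>
    obtain ⟨r, i, i', j, l, hr, h1, ha, hb, hc, rfl⟩ := hx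
    exact AddSubmonoid.subset_closure ⟨r, i', i, j, l, hr, by omega, hb, ha, Nat.zero_le _, rfl⟩

def Good (s t : A) (n : ℕ) (F : A) : Prop := ∃ γ : ℕ → ℕ → ℚ, (∀ i j, 0 ≤ γ i j) ∧
    F = ∑ i ∈ range (n + 1), ∑ j ∈ range (n + 1 - 2 * i), γ i j • Bs s t i j (n - 2 * i - j)

lemma Good.zero (n : ℕ) : Good s t n 0 := ⟨fun _ _ => 0, fun _ _ => le_rfl, by simp⟩

lemma Good.add {n : ℕ} {F G : A} (hx : Good s t n F) (hy : Good s t n G) : Good s t n (F + G) := by
  obtain ⟨γ, h1, rfl⟩ := hx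
  obtain ⟨δ, h2, rfl⟩ := hy
  exact ⟨fun i j => γ i j + δ i j, fun i j => add_nonneg (h1 i j) (h2 i j), by
    simp only [add_smul, sum_add_distrib]⟩

lemma Good.smul {n : ℕ} {F : A} {r : ℚ} (hr : 0 ≤ r) (hx : Good s t n F) : Good s t n (r • F) := by
  obtain ⟨γ, h1, rfl⟩ := hx
  exact ⟨fun i j => r * γ i j, fun i j => mul_nonneg hr (h1 i j), by simp only [smul_sum, smul_smul]⟩

lemma Good.one {n : ℕ} (i j l : ℕ) (h : 2 * i + j + l = n) : Good s t n (Bs s t i j l) := by
  refine ⟨fun i' j' => if i' = i ∧ j' = j then 1 else 0, fun i' j' => by positivity, ?_⟩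
  rw [sum_eq_single_of_mem i (mem_range.2 (by omega)) (fun i' _ g => by simp [g]),
    sum_eq_single_of_mem j (mem_range.2 (by omega)) (fun j' _ g => by simp [g])]
  simp only [and_self, if_true, one_smul]
  congr 1
  omega

lemma cone2_good {n k : ℕ} {x : A × A} (hF : x ∈ cone2 s t (n + 1) k) : Good s t n (x.1 + x.2) := by
  induction hF using AddSubmonoid.closure_induction with
  | zero => simpa using Good.zero n
  | add x y _ _ hx hy =>
    rw [Prod.fst_add, Prod.snd_add, add_add_add_comm]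
    exact hx.add hy
  | mem x hx =>
    obtain ⟨r, i, i', j, l, hr, h1, ha, hb, hc, rfl⟩ := hx
    rw [← smul_add]
    refine Good.smul hr ?_
    rcases (by omega : i = i' ∨ i = i' + 1 ∨ i' = i + 1) with rfl | rfl | rfl
    · exact (Good.one _ _ _ (by omega)).add (Good.one _ _ _ (by omega))
    · convert Good.one (s := s) (t := t) (n := n) i' j (l + 1) (by omega) using 1
      simp only [Bs]; ring
    · convert Good.one (s := s) (t := t) (n := n) i j (l + 1) (by omega) using 1
      simp only [Bs]; ring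

end

end Pool.Agent.H.MP_12caf3_co
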