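import Pool.Agent.H.MP_12caf3_co.C

set_option autoImplicit false

namespace Pool.Agent.H.MP_12caf3_co

open Finset PowerSeries Equiv Classical
open Pool.Agent.H.MP_436b38_co

noncomputable def hh (y k : ℕ) : ℚ := coeff k (geo 1 ^ y)

lemma hh_zero (y : ℕ) : hh y 0 = 1 := by
  rw [hh, coeff_zero_eq_constantCoeff_apply, map_pow, ← coeff_zero_eq_constantCoeff_apply]
  simp [geo]

lemma hh_succ (y k : ℕ) : ((k : ℚ) + 1) * hh y (k + 1) = (y + k) * hh y k := by
  have e : geo 1 = PowerSeries.mk 1 := by ext n; simp [geo]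
  rcases y with _ | y
  · rcases k with _ | k <;> simp [hh, coeff_one]
  · simp only [hh, e, mk_one_pow_eq_mk_choose_add, coeff_mk]
    have := Nat.choose_mul_succ_eq (y + k) y
    rw [show y + k + 1 - y = k + 1 by omega] at this
    have := congrArg (Nat.cast : ℕ → ℚ) this
    rw [← add_assoc]
    push_cast at this ⊢
    linear_combination -this

lemma co_geo (κ : ℚ) (y k : ℕ) : coeff k (geo κ ^ y) = κ ^ k * hh y k := by
  have e : geo κ = rescale κ (geo 1) := by ext n; simp [geo, coeff_rescale]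
  rw [e, ← map_pow, coeff_rescale, hh]

noncomputable def G2 (f : ℕ → ℕ → ℚ) : AA := PowerSeries.mk fun b => PowerSeries.mk fun a => f a b

noncomputable def PP (p k : ℕ) : AA := G2 fun a b => hh ((a + 1) * (b + 1)) p * hh (a * b) k
noncomputable def QQ (p k : ℕ) : AA := G2 fun a b => hh (a * b) p * hh ((a + 1) * (b + 1)) k

lemma PP_step (p k : ℕ) : ((k : ℚ) + 1) • PP p (k + 1) = ts (th _ (PP p k)) + (k : ℤ) * PP p k := by
  refine PowerSeries.ext fun y => PowerSeries.ext fun x => ?_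
  rw [← zsmul_eq_mul]
  simp only [PP, G2, map_add, co_ts, co_th, map_nsmul, map_zsmul, coeff_mk, LinearMap.map_smul_of_tower]
  simp only [smul_eq_mul, nsmul_eq_mul, zsmul_eq_mul]
  have := hh_succ (x * y) k
  push_cast at this ⊢
  linear_combination hh ((x + 1) * (y + 1)) p * this

lemma QQ_step (p k : ℕ) : ((k : ℚ) + 1) • (C X * X * QQ p (k + 1) : AA) =
    ts (th _ (C X * X * QQ p k)) + ((k : ℤ) : AA) * (C X * X * QQ p k : AA) := by
  refine PowerSeries.ext fun y => PowerSeries.ext fun x => ?_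
  rw [← zsmul_eq_mul]
  simp only [map_add, co_ts, co_th, map_nsmul, map_zsmul, LinearMap.map_smul_of_tower, mul_assoc, coeff_C_mul]
  simp only [smul_eq_mul, nsmul_eq_mul, zsmul_eq_mul]
  rcases x with _ | x
  · simp
  rcases y with _ | y
  · simp
  simp only [coeff_succ_X_mul, QQ, G2, coeff_mk]
  have := hh_succ ((x + 1) * (y + 1)) k
  push_cast at this ⊢
  linear_combination hh (x * y) p * this

def Cl (p k : ℕ) : Prop := ∃ x ∈ cone2 (C X : AA) X (p + k + 1) k,
  PP p k = x.1 * ww ^ (p + k + 1) ∧ QQ p k = x.2 * ww ^ (p + k + 1)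

lemma Cl_step {p k : ℕ} (h : Cl p k) : Cl p (k + 1) := by
  obtain ⟨x, h1, h2, h3⟩ := h
  obtain ⟨G, g1, g2⟩ := op_cone2 ts_leib (th_leib _) ts_s ts_t (th_X _) (th_C _ _) h1
  refine ⟨_, cone2_smul (r := ((k : ℚ) + 1)⁻¹) (by positivity) g1, ?_, ?_⟩
  · rw [Prod.smul_fst, smul_mul_assoc, eq_inv_smul_iff₀ (by positivity), PP_step, h2, ww,
      op_eq ts_leib (th_leib _) ts_s ts_t (th_X _) (th_C _ _) hu hv]
    rfl
  · have hne : (C X * X : AA) ≠ 0 := mul_ne_zero (fun e => X_ne_zero (C_injective (e.trans (map_zero _).symm)))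
      X_ne_zero
    rw [Prod.smul_snd, smul_mul_assoc, eq_inv_smul_iff₀ (by positivity)]
    refine mul_left_cancel₀ hne ?_
    rw [mul_smul_comm, QQ_step, h3, ← mul_assoc, ww,
      op_eq ts_leib (th_leib _) ts_s ts_t (th_X _) (th_C _ _) hu hv, g2, mul_assoc]
    rfl

lemma Cl_of {p : ℕ} (h : Cl p 0) (k : ℕ) : Cl p k := by
  induction k with
  | zero => exact h
  | succ k ih => exact Cl_step ih

lemma Cl_all (p k : ℕ) : Cl p k := by
  have e : G2 (fun _ _ => 1) = ww := by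
    refine PowerSeries.ext fun y => PowerSeries.ext fun x => ?_
    simp [G2, ww, coeff_C_mul]
  have h0 : Cl 0 0 := ⟨_, AddSubmonoid.subset_closure ⟨1, 0, 0, 0, 0, zero_le_one, rfl, by omega, by omega, le_rfl, rfl⟩,
    by simp [PP, hh_zero, Bs, e], by simp [QQ, hh_zero, Bs, e]⟩
  obtain ⟨x, h1, h2, h3⟩ := Cl_of h0 p
  refine Cl_of ⟨x.swap, ?_, ?_, ?_⟩ k
  · simpa using cone2_swap h1
  · simpa [PP, QQ, hh_zero] using h3
  · simpa [PP, QQ, hh_zero] using h2

lemma dz_le {n : ℕ} {β : Type} [LinearOrder β] (z : β) (x : Fin n → β) : dz z x ≤ n :=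
  (card_filter_le _ _).trans (by simp)

noncomputable def TT2 (n : ℕ) (κ : ℚ) : AA := ∑ σ : Perm (Fin n), ∑ ε : Fin n → ℤˣ,
  chi κ σ ε • ((C X : AA) ^ dz 0 (vl σ.symm (ε ∘ σ.symm)) * X ^ dz 0 (vl σ ε))

lemma TT2_w {n : ℕ} (hn : 0 < n) {κ : ℚ} (hκ : κ * κ = 1) :
    TT2 n κ * ww ^ (n + 1) = ∑ x ∈ antidiagonal n, κ ^ x.2 • PP x.1 x.2 := by
  refine PowerSeries.ext fun b => PowerSeries.ext fun a => ?_
  simp only [TT2, sum_mul, smul_mul_assoc, map_sum, LinearMap.map_smul_of_tower, smul_eq_mul,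
    co_w _ _ _ _ _ (dz_le _ _) (dz_le _ _) hn, PP, G2, coeff_mk]
  have := count (n := n) a b hκ
  rw [coeff_mul] at this
  simp only [co_geo, one_pow, one_mul] at this
  refine Eq.trans ?_ (this.trans (sum_congr rfl fun x _ => by ring))
  refine sum_congr rfl fun σ _ => sum_congr rfl fun ε _ => ?_
  push_cast
  ring

lemma good {n : ℕ} (hn : 0 < n) (he : Even n) {e : ℚ} (h1 : e = 1 ∨ e = -1) :
    Good (C X : AA) X n ((1 / 2 : ℚ) • (TT2 n 1 + e • TT2 n (-1))) := by
  choose x hx1 hx2 hx3 using Cl_all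
  have e1 : ((1 / 2 : ℚ) • (TT2 n 1 + e • TT2 n (-1))) * ww ^ (n + 1) =
      (∑ y ∈ antidiagonal n, ((1 + e * (-1) ^ y.2) / 4 : ℚ) • ((x y.1 y.2).1 + (x y.1 y.2).2)) * ww ^ (n + 1) := by
    rw [smul_mul_assoc, add_mul, smul_mul_assoc, TT2_w hn (by norm_num), TT2_w hn (by norm_num), sum_mul,
      sum_congr rfl (g := fun y => ((1 + e * (-1) ^ y.2) / 4 : ℚ) • PP y.1 y.2 +
        ((1 + e * (-1) ^ y.1) / 4 : ℚ) • PP y.2 y.1) (f := fun y => _ * ww ^ (n + 1)), sum_add_distrib,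
      ← Nat.sum_antidiagonal_swap (f := fun y => ((1 + e * (-1) ^ y.1) / 4 : ℚ) • PP y.2 y.1), smul_sum,
      ← sum_add_distrib, ← sum_add_distrib, smul_sum]
    · refine sum_congr rfl fun y _ => ?_
      simp only [Prod.fst_swap, Prod.snd_swap, smul_smul, ← add_smul]
      congr 1
      ring
    · intro y hy
      have g := HasAntidiagonal.mem_antidiagonal.1 hy
      have g1 : (-1 : ℚ) ^ y.1 = (-1) ^ y.2 := by
        rw [← g, Nat.even_add] at he
        rcases Nat.even_or_odd y.2 with g2 | g2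
        · rw [g2.neg_one_pow, (he.2 g2).neg_one_pow]
        · rw [g2.neg_one_pow, (Nat.not_even_iff_odd.1 fun g3 => Nat.not_even_iff_odd.2 g2 (he.1 g3)).neg_one_pow]
      have g3 : PP y.2 y.1 = QQ y.1 y.2 := by simp only [PP, QQ, mul_comm]
      rw [g1, g3, hx2, hx3, g, smul_mul_assoc, add_mul, smul_add]
  have e2 : ww * ((1 - C X) * (1 - X)) = 1 := by rw [ww, mul_mul_mul_comm, hu, hv, one_mul]
  have e3 := congrArg (· * ((1 - C X) * (1 - X)) ^ (n + 1)) e1
  simp only [mul_assoc, ← mul_pow, e2, one_pow, mul_one] at e3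
  rw [e3]
  refine sum_induction _ _ (fun _ _ => Good.add) (Good.zero n) fun y hy => Good.smul ?_ ?_
  · rcases h1 with rfl | rfl <;> rcases neg_one_pow_eq_or ℚ y.2 with g | g <;> rw [g] <;> norm_num
  · have := hx1 y.1 y.2
    rw [HasAntidiagonal.mem_antidiagonal.1 hy] at this
    exact cone2_good this

lemma chi_one {n : ℕ} (σ : Perm (Fin n)) (ε : Fin n → ℤˣ) : chi 1 σ ε = 1 := by simp [chi]

lemma chi_neg {n : ℕ} (σ : Perm (Fin n)) (ε : Fin n → ℤˣ) :
    chi (-1) σ ε = (((Perm.sign σ * ∏ q, ε q : ℤˣ) : ℤ) : ℚ) := by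
  rw [chi, prod_mul_distrib, mul_comm, Perm.sign_eq_prod_prod_Iio]
  push_cast
  congr 1
  · refine prod_congr rfl fun q _ => ?_
    rw [← prod_filter, show univ.filter (· < q) = Iio q by ext; simp]
    refine prod_congr rfl fun p _ => ?_
    split_ifs <;> simp
  · refine prod_congr rfl fun q _ => ?_
    rcases Int.units_eq_one_or (ε q) with g | g <;> simp [g]

theorem main {n : ℕ} (hn : 0 < n) (he : Even n) (e : ℤˣ) : ∃ γ : ℕ → ℕ → ℝ, (∀ i j, 0 ≤ γ i j) ∧ ∀ s t : ℝ,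
    ∑ σ : Perm (Fin n), ∑ ε : Fin n → ℤˣ, (if Perm.sign σ * ∏ q, ε q = e then
      t ^ dz 0 (vl σ ε) * s ^ dz 0 (vl σ.symm (ε ∘ σ.symm)) else 0) =
    ∑ i ∈ range (n + 1), ∑ j ∈ range (n + 1 - 2 * i),
      γ i j * (s * t) ^ i * (s + t) ^ j * (1 + s * t) ^ (n - 2 * i - j) := by
  obtain ⟨γ, h1, h2⟩ := good hn he (e := ((e : ℤ) : ℚ))
    (by rcases Int.units_eq_one_or e with g | g <;> simp [g])
  refine ⟨fun i j => γ i j, fun i j => Rat.cast_nonneg.2 (h1 i j), fun s t => ?_⟩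
  have e0 : ∀ r : ℚ, ph (Polynomial.C (Polynomial.C r)) = algebraMap ℚ AA r := fun r => by
    simp [ph, PowerSeries.algebraMap_apply]
  have e1 : ∑ σ : Perm (Fin n), ∑ ε : Fin n → ℤˣ, (if Perm.sign σ * ∏ q, ε q = e then
      (Polynomial.X : Polynomial (Polynomial ℚ)) ^ dz 0 (vl σ ε) *
        Polynomial.C Polynomial.X ^ dz 0 (vl σ.symm (ε ∘ σ.symm)) else 0) =
      ∑ i ∈ range (n + 1), ∑ j ∈ range (n + 1 - 2 * i), Polynomial.C (Polynomial.C (γ i j)) *
      (Polynomial.C Polynomial.X * Polynomial.X) ^ i * (Polynomial.C Polynomial.X + Polynomial.X) ^ j *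
      (1 + Polynomial.C Polynomial.X * Polynomial.X) ^ (n - 2 * i - j) := by
    refine ph_inj ?_
    simp only [map_sum, map_mul, map_pow, map_add, map_one, ph_s, ph_t, e0, apply_ite ph, map_zero]
    refine Eq.trans ?_ (h2.trans (sum_congr rfl fun i _ => sum_congr rfl fun j _ => ?_))
    · simp only [TT2, smul_sum, ← sum_add_distrib, smul_smul, ← add_smul, chi_one, chi_neg]
      refine sum_congr rfl fun σ _ => sum_congr rfl fun ε _ => ?_
      generalize Perm.sign σ * ∏ q, ε q = d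
      rcases Int.units_eq_one_or e with rfl | rfl <;> rcases Int.units_eq_one_or d with rfl | rfl <;>
        norm_num [mul_comm]
    · rw [Algebra.smul_def, Bs]; ring
  have e2 := congrArg (Polynomial.eval₂RingHom (Polynomial.eval₂RingHom (algebraMap ℚ ℝ) s) t) e1
  simpa only [map_sum, map_mul, map_pow, map_add, map_one, apply_ite (Polynomial.eval₂RingHom _ t), map_zero,
    Polynomial.coe_eval₂RingHom, Polynomial.eval₂_X, Polynomial.eval₂_C, eq_ratCast] using e2

end Pool.Agent.H.MP_12caf3_co
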